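import Pool.Agent.H58.SO.Basic

/-!
# Several orbits of vertices: Case C (two types)
-/

set_option autoImplicit false

namespace Pool.Agent.H35.SO

open Pool.Agent.H68.BP Pool.Agent.H58.SF Pool.Agent.H53.GC Pool.Agent.H53.NR Pool.Agent.H58.SO
open Classical

namespace CSCx

section

variable {V X Θ : Type} {M : ℕ} [LinearOrder V] {B : Bs V X Θ M} {P I R : Type} [LinearOrder R]
  {x : P → I → V} {lev : P → I → ℕ} {ρ : P → I → R} {supp : ℕ → Set I} {z : P → I → V}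

/-- two blocks of a configuration with the same shape -/
theorem za (h : Cfg B x lev ρ supp z) (a a' : P) (κ : I → ℕ) (hk : ∀ l, lev a l = κ l)
    (hk' : ∀ l, lev a' l = κ l)
    (hx : ∀ l l', κ l = κ l' → ρ a l = ρ a l' ∧ ρ a' l = ρ a' l')
    (hs : ∀ l l', κ l < κ l' → supp (κ l) ∩ supp (κ l') = ∅) : ZA B κ (z a) (z a') := by
  have hlt : ∀ b b' l l', lev b l = κ l → lev b' l' = κ l' → κ l < κ l' →
      z b l < z b' l' ∧ B.c (z b l) (z b' l') = B.fr (B.vt (z b l)) (B.vt (z b' l')) := by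
    intro b b' l l' h1 h2 h3
    refine ⟨(h.lt _ _ _ _).2 (Or.inl (by rw [h1, h2]; exact h3)), ?_⟩
    rw [h.typ, h.typ]
    refine (h.col b l b' l').2 ?_
    rintro ⟨h4, -⟩
    rw [h1, h2, hs l l' h3] at h4
    exact Set.not_nonempty_empty h4
  refine ⟨fun l l' he => ⟨(h.eq_iff a l a l').2 ⟨by rw [hk, hk, he], (hx l l' he).1⟩,
    (h.eq_iff a' l a' l').2 ⟨by rw [hk', hk', he], (hx l l' he).2⟩⟩, fun l l' hl => ?_,
    fun l l' hl => ?_⟩
  · exact ⟨(hlt a a l l' (hk l) (hk l') hl).1, (hlt a a' l l' (hk l) (hk' l') hl).1,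
      (hlt a' a l l' (hk' l) (hk l') hl).1, (hlt a' a' l l' (hk' l) (hk' l') hl).1⟩
  · exact ⟨(hlt a a l l' (hk l) (hk l') hl).2, (hlt a a' l l' (hk l) (hk' l') hl).2,
      (hlt a' a l l' (hk' l) (hk l') hl).2, (hlt a' a' l l' (hk' l) (hk' l') hl).2⟩

end

theorem pat_cases (r : Fin 3) (l : Fin 6) : pat r 0 7 l = 0 ∨ pat r 0 7 l = (7 : ℕ) := by
  fin_cases r <;> fin_cases l <;> simp [pat]

theorem pat_choose (i : Fin 6) (β : ℕ) (hβ : β = 0 ∨ β = 7) : ∃ r, pat r 0 7 i ≠ β := by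
  rcases hβ with rfl | rfl
  · fin_cases i
    · exact ⟨2, by simp [pat]⟩
    · exact ⟨1, by simp [pat]⟩
    · exact ⟨0, by simp [pat]⟩
    · exact ⟨0, by simp [pat]⟩
    · exact ⟨0, by simp [pat]⟩
    · exact ⟨1, by simp [pat]⟩
  · fin_cases i
    · exact ⟨0, by simp [pat]⟩
    · exact ⟨0, by simp [pat]⟩
    · exact ⟨1, by simp [pat]⟩
    · exact ⟨2, by simp [pat]⟩
    · exact ⟨1, by simp [pat]⟩
    · exact ⟨0, by simp [pat]⟩

theorem pat_hit (r : Fin 3) (β : ℕ) (hβ : β = 0 ∨ β = 7) : ∃ l, pat r 0 7 l = β := by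
  rcases hβ with rfl | rfl
  · fin_cases r
    · exact ⟨0, by simp [pat]⟩
    · exact ⟨0, by simp [pat]⟩
    · exact ⟨1, by simp [pat]⟩
  · fin_cases r
    · exact ⟨2, by simp [pat]⟩
    · exact ⟨1, by simp [pat]⟩
    · exact ⟨0, by simp [pat]⟩

end CSCx

open CSCx in
theorem pf_CSC (hSCF : T_SCF) (hCCL : T_CCL) (hCMQ : T_CMQ) (hJKS : T_JKS) (hLET : T_LET) :
    T_CSC := by
  intro σ V X Θ _ M B 𝔸 D h hC n q γ₀ γ₁ p₀ p₀' p₁ p₁' U hU
  by_contra hne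
  obtain ⟨hp0, hp0', ht0, hD0⟩ := hU.adm _ hU.m₀
  obtain ⟨hp1, hp1', ht1, hD1⟩ := hU.adm _ hU.m₁
  simp only at hp0 hp0' ht0 hD0 hp1 hp1' ht1 hD1
  obtain ⟨G, hG⟩ := hJKS σ V X Θ M B 𝔸 D h hC gen (B.vt (q p₀.1)) hD0
  obtain ⟨i, hi⟩ := hG.ne
  have hJ := fun r => hJKS σ V X Θ M B 𝔸 D h hC (pat r 0 7) (B.vt (q p₁.1)) hD1
  choose J hJ using hJ
  obtain ⟨b, ⟨β, hβb, hβ⟩, hb⟩ := hLET σ V X Θ M B 𝔸 D h hC (B.vt (q p₁.1)) hD1 J hJ
  obtain ⟨r, hr⟩ := pat_choose i β hβ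
  obtain ⟨l₁, hl₁⟩ := pat_hit r β hβ
  obtain ⟨S, hS⟩ : ∃ S : Set (Fin 6), ∀ l, l ∈ S ↔ pat r 0 7 l = β :=
    ⟨{l | pat r 0 7 l = β}, fun _ => Iff.rfl⟩
  have hSl : ∀ l l', pat r 0 7 l = (pat r 0 7 l' : ℕ) → (l ∈ S ↔ l' ∈ S) := by
    intro l l' hll
    rw [hS, hS, hll]
  let x : Fin n × Fin n → Fin 6 → V := fun p l => if l ∈ S then γ₀ p else γ₁ p
  let lev : Fin n × Fin n → Fin 6 → ℕ := fun p l =>
    if B.vt (x p l) = B.vt (q p₁.1) then pat r 0 7 l else l.val + 1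
  let supp : ℕ → Set (Fin 6) := fun k => {l | k = pat r 0 7 l ∨ k = l.val + 1}
  obtain ⟨z, hz⟩ := hSCF V X Θ M B (Fin n × Fin n) (Fin 6) V x lev x supp
    (fun _ _ _ _ _ => Iff.rfl)
  have hx : ∀ p l l', (l ∈ S ↔ l' ∈ S) → x p l = x p l' := by
    intro p l l' hll
    show (if l ∈ S then γ₀ p else γ₁ p) = if l' ∈ S then γ₀ p else γ₁ p
    by_cases h1 : l ∈ S
    · rw [if_pos h1, if_pos (hll.1 h1)]
    · rw [if_neg h1, if_neg (fun h2 => h1 (hll.2 h2))]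
  have hxt : ∀ p, Pu B q p → ∀ l, B.vt (x p l) = B.vt (q p.1) := by
    intro p hp l
    show B.vt (if l ∈ S then γ₀ p else γ₁ p) = B.vt (q p.1)
    by_cases h1 : l ∈ S
    · rw [if_pos h1]
      exact hU.b₀.typ p hp
    · rw [if_neg h1]
      exact hU.b₁.typ p hp
  have hlev1 : ∀ p, Pu B q p → B.vt (q p.1) = B.vt (q p₁.1) → ∀ l, lev p l = pat r 0 7 l := by
    intro p hp ht l
    exact if_pos (by rw [hxt p hp, ht])
  have hlev2 : ∀ p, Pu B q p → B.vt (q p.1) ≠ B.vt (q p₁.1) → ∀ l, lev p l = gen l := by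
    intro p hp ht l
    exact if_neg (by rw [hxt p hp]; exact ht)
  have hs1 : ∀ l l', pat r 0 7 l ≠ (pat r 0 7 l' : ℕ) →
      supp (pat r 0 7 l) ∩ supp (pat r 0 7 l') = ∅ := by
    intro l l' hll
    rw [Set.eq_empty_iff_forall_notMem]
    rintro m ⟨h1, h2⟩
    have h1' : pat r 0 7 l = (pat r 0 7 m : ℕ) ∨ pat r 0 7 l = m.val + 1 := h1
    have h2' : pat r 0 7 l' = (pat r 0 7 m : ℕ) ∨ pat r 0 7 l' = m.val + 1 := h2
    have h3 := m.2
    have h4 := pat_cases r l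
    have h5 := pat_cases r l'
    omega
  have hs2 : ∀ l l', gen l ≠ gen l' → supp (gen l) ∩ supp (gen l') = ∅ := by
    intro l l' hll
    rw [Set.eq_empty_iff_forall_notMem]
    rintro m ⟨h1, h2⟩
    have h1' : l.val + 1 = (pat r 0 7 m : ℕ) ∨ l.val + 1 = m.val + 1 := h1
    have h2' : l'.val + 1 = (pat r 0 7 m : ℕ) ∨ l'.val + 1 = m.val + 1 := h2
    have h3 := pat_cases r m
    have h4 := l.2
    have h5 := l'.2
    have h6 : l.val + 1 ≠ l'.val + 1 := hll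
    omega
  have hgen : ∀ l l' : Fin 6, gen l = gen l' → l = l' := by
    intro l l' hll
    have h6 : l.val + 1 = l'.val + 1 := hll
    exact Fin.ext (by omega)
  have hcl : ∀ l, SameD B ∅ (if l ∈ S then γ₀ else γ₁) (fun p => z p l) := by
    intro l
    have h1 := hCCL V X Θ M B (Fin n × Fin n) (Fin 6) V x lev x supp z l ∅ hz ?_ ?_
      (fun _ _ _ _ _ h2 => h2)
    · have h2 : (fun a => x a l) = if l ∈ S then γ₀ else γ₁ := by
        funext a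
        show (if l ∈ S then γ₀ a else γ₁ a) = _
        by_cases h3 : l ∈ S
        · rw [if_pos h3, if_pos h3]
        · rw [if_neg h3, if_neg h3]
      rw [h2] at h1
      exact h1
    · intro a _
      show (if B.vt (x a l) = B.vt (q p₁.1) then pat r 0 7 l else l.val + 1) = pat r 0 7 l ∨
        (if B.vt (x a l) = B.vt (q p₁.1) then pat r 0 7 l else l.val + 1) = l.val + 1
      by_cases h3 : B.vt (x a l) = B.vt (q p₁.1)
      · exact Or.inl (if_pos h3)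
      · exact Or.inr (if_neg h3)
    · intro a a' _ _ h2
      refine ⟨?_, h2⟩
      show (if B.vt (x a l) = B.vt (q p₁.1) then pat r 0 7 l else l.val + 1) =
        if B.vt (x a' l) = B.vt (q p₁.1) then pat r 0 7 l else l.val + 1
      rw [h2]
  have hzb : ∀ p, Pu B q p → ∃ κ, ZB B κ (z p) := by
    intro p hp
    by_cases ht : B.vt (q p.1) = B.vt (q p₁.1)
    · exact ⟨pat r 0 7, hz.zb p _ (hlev1 p hp ht) (fun l l' hll => hx p l l' (hSl l l' hll))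
        fun l l' hll => Or.inl (hs1 l l' hll)⟩
    · exact ⟨gen, hz.zb p _ (hlev2 p hp ht) (fun l l' hll => by rw [hgen l l' hll])
        fun l l' hll => Or.inl (hs2 l l' hll)⟩
  have hsep : ∀ u ∈ U, γ₀ u.1 ≠ γ₀ u.2 → γ₁ u.1 ≠ γ₁ u.2 → ∀ l l', z u.1 l ≠ z u.2 l' := by
    intro u hu h0 h1 l l' hll
    obtain ⟨hp, hp', ht, -⟩ := hU.adm u hu
    obtain ⟨h2, h3⟩ := (hz.eq_iff u.1 l u.2 l').1 hll
    have h4 : l ∈ S ↔ l' ∈ S := by
      by_cases h5 : B.vt (q u.1.1) = B.vt (q p₁.1)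
      · rw [hlev1 u.1 hp h5, hlev1 u.2 hp' (ht.trans h5)] at h2
        exact hSl l l' h2
      · rw [hlev2 u.1 hp h5, hlev2 u.2 hp' (fun h6 => h5 (ht.symm.trans h6))] at h2
        rw [hgen l l' h2]
    have h5 : x u.1 l = x u.2 l := h3.trans (hx u.2 l' l h4.symm)
    by_cases h6 : l ∈ S
    · apply h0
      have h7 : (if l ∈ S then γ₀ u.1 else γ₁ u.1) = if l ∈ S then γ₀ u.2 else γ₁ u.2 := h5
      rwa [if_pos h6, if_pos h6] at h7
    · apply h1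
      have h7 : (if l ∈ S then γ₀ u.1 else γ₁ u.1) = if l ∈ S then γ₀ u.2 else γ₁ u.2 := h5
      rwa [if_neg h6, if_neg h6] at h7
  rcases hCMQ σ V X Θ M B 𝔸 D h hC n q γ₀ γ₁ p₀ p₀' p₁ p₁' U hU S z hcl hzb hsep with hA | hA
  · -- the type `s`
    have hne' : B.vt (q p₀.1) ≠ B.vt (q p₁.1) := fun h1 => hne h1.symm
    have hza : ZA B gen (z p₀) (z p₀') :=
      za hz p₀ p₀' gen (hlev2 p₀ hp0 hne') (hlev2 p₀' hp0' (by rw [ht0]; exact hne'))
        (fun l l' hll => by rw [hgen l l' hll]; exact ⟨rfl, rfl⟩)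
        fun l l' hll => hs2 l l' (ne_of_lt hll)
    have h1 := (hG.det (z p₀) (z p₀') (fun l => by rw [hz.typ, hxt p₀ hp0])
      (fun l => by rw [hz.typ, hxt p₀' hp0', ht0]) hza).1 hA i hi
    have h2 := ((hz.eq_iff p₀ i p₀' i).1 h1).2
    have h3 : (if i ∈ S then γ₀ p₀ else γ₁ p₀) = if i ∈ S then γ₀ p₀' else γ₁ p₀' := h2
    have h4 : i ∉ S := fun h5 => hr ((hS i).1 h5)
    rw [if_neg h4, if_neg h4] at h3
    exact hU.e2 h3
  · -- the type of `p₁`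
    have hza : ZA B (pat r 0 7) (z p₁) (z p₁') :=
      za hz p₁ p₁' (pat r 0 7) (hlev1 p₁ hp1 rfl) (hlev1 p₁' hp1' ht1)
        (fun l l' hll => ⟨hx p₁ l l' (hSl l l' hll), hx p₁' l l' (hSl l l' hll)⟩)
        fun l l' hll => hs1 l l' (ne_of_lt hll)
    have h1 := ((hJ r).det (z p₁) (z p₁') (fun l => by rw [hz.typ, hxt p₁ hp1])
      (fun l => by rw [hz.typ, hxt p₁' hp1', ht1]) hza).1 hA l₁ ((hb r l₁).2 (by rw [hl₁]; exact hβb))
    have h2 := ((hz.eq_iff p₁ l₁ p₁' l₁).1 h1).2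
    have h3 : (if l₁ ∈ S then γ₀ p₁ else γ₁ p₁) = if l₁ ∈ S then γ₀ p₁' else γ₁ p₁' := h2
    have h4 : l₁ ∈ S := (hS l₁).2 hl₁
    rw [if_pos h4, if_pos h4] at h3
    exact hU.e4 h3

end Pool.Agent.H35.SO
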