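import Pool.Agent.H58.SO.Basic

/-!
# Several orbits of vertices: systems of points with copied colours
-/

set_option autoImplicit false

namespace Pool.Agent.H35.SO

open Pool.Agent.H68.BP Pool.Agent.H58.SF Pool.Agent.H53.GC Pool.Agent.H53.NR Pool.Agent.H58.SO

theorem pf_SYS : T_SYS := by
  classical
  intro V X Θ _ M B W _ _ u r hr
  have hW : Fintype W := Fintype.ofFinite W
  let e0 : Fin (Fintype.card W) ≃o W := Fintype.orderIsoFinOfCardEq W rfl
  let d : Fin (Fintype.card W) → Fin (Fintype.card W) → X := fun i j =>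
    if r (e0 i) (e0 j) ∧ u (e0 i) ≠ u (e0 j) then B.c (u (e0 i)) (u (e0 j))
    else B.fr (B.vt (u (e0 i))) (B.vt (u (e0 j)))
  have hd1 : ∀ i j, r (e0 i) (e0 j) ∧ u (e0 i) ≠ u (e0 j) →
      d i j = B.c (u (e0 i)) (u (e0 j)) := fun i j h => if_pos h
  have hd2 : ∀ i j, ¬ (r (e0 i) (e0 j) ∧ u (e0 i) ≠ u (e0 j)) →
      d i j = B.fr (B.vt (u (e0 i))) (B.vt (u (e0 j))) := fun i j h => if_neg h
  have hdd : ∀ i, d i i = B.fr (B.vt (u (e0 i))) (B.vt (u (e0 i))) := fun i =>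
    hd2 i i fun h => h.2 rfl
  have hL : ∀ i, B.L (d i i) = B.vt (u (e0 i)) := fun i => by rw [hdd, B.frL]
  obtain ⟨f, hf, hf2⟩ := B.univ _ d (by
    intro m s _ _ h
    refine ⟨fun i => u (e0 (s i)), ?_⟩
    intro i j hij
    rcases eq_or_lt_of_le hij with h1 | h1
    · subst h1
      rw [hdd]
      exact B.diag _
    · have h2 : r (e0 (s i)) (e0 (s j)) ∧ u (e0 (s i)) ≠ u (e0 (s j)) := by
        by_contra h3
        apply h i j h1
        show d (s i) (s j) = B.fr (B.L (d (s i) (s i))) (B.L (d (s j) (s j)))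
        rw [hL, hL]
        exact hd2 _ _ h3
      exact (hd1 _ _ h2).symm)
  have hvt : ∀ i, B.vt (f i) = B.vt (u (e0 i)) := by
    intro i
    rw [← B.left (f i) (f i), hf2 i i le_rfl, hL]
  have key : ∀ n n', n < n' →
      (r n n' ∧ u n ≠ u n' → B.c (f (e0.symm n)) (f (e0.symm n')) = B.c (u n) (u n')) ∧
        (¬ (r n n' ∧ u n ≠ u n') →
          B.c (f (e0.symm n)) (f (e0.symm n')) = B.fr (B.vt (u n)) (B.vt (u n'))) := by
    intro n n' hn
    have h1 := hf2 (e0.symm n) (e0.symm n') (e0.symm.strictMono hn).le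
    refine ⟨?_, ?_⟩
    · intro h2
      have h4 := hd1 (e0.symm n) (e0.symm n')
      rw [OrderIso.apply_symm_apply, OrderIso.apply_symm_apply] at h4
      rw [h1, h4 h2]
    · intro h2
      have h4 := hd2 (e0.symm n) (e0.symm n')
      rw [OrderIso.apply_symm_apply, OrderIso.apply_symm_apply] at h4
      rw [h1, h4 h2]
  refine ⟨fun w => f (e0.symm w), hf.comp e0.symm.strictMono, ?_, ?_⟩
  · intro n
    show B.vt (f (e0.symm n)) = B.vt (u n)
    rw [hvt, OrderIso.apply_symm_apply]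
  intro n n' hne
  show (r n n' ∧ u n ≠ u n' → B.c (f (e0.symm n)) (f (e0.symm n')) = B.c (u n) (u n')) ∧
    (¬ (r n n' ∧ u n ≠ u n') →
      B.c (f (e0.symm n)) (f (e0.symm n')) = B.fr (B.vt (u n)) (B.vt (u n')))
  rcases lt_or_gt_of_ne hne with h | h
  · exact key n n' h
  · have h1 := key n' n h
    have h2 := B.sym (f (e0.symm n')) (f (e0.symm n))
    refine ⟨?_, ?_⟩
    · intro h3
      rw [h2, h1.1 ⟨hr _ _ h3.1, Ne.symm h3.2⟩]
      exact (B.sym _ _).symm
    · intro h3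
      rw [h2, h1.2 (fun h5 => h3 ⟨hr _ _ h5.1, Ne.symm h5.2⟩), B.frI]

end Pool.Agent.H35.SO
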